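import Pool.Agent.Helper89.Hia.Defs

/-!
MP_5ace61_lc, block O: the definition of interval algebras by chains agrees with the one by
half-open intervals of a linear order.
-/

open Set Cardinal

namespace Pool.Agent.Hia

/-- the interval algebra of a linear order: the algebra of sets generated by the half-open
intervals -/
def intervalSubalgebra (X : Type*) [LinearOrder X] : BooleanSubalgebra (Set X) :=
  BooleanSubalgebra.closure
    ({s | ∃ a b, s = Set.Ico a b} ∪ {s | ∃ a, s = Set.Ici a} ∪ {s | ∃ b, s = Set.Iio b})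

theorem intervalSubalgebra_eq (X : Type*) [LinearOrder X] :
    intervalSubalgebra X = BooleanSubalgebra.closure {s | ∃ b, s = Set.Iio b} := by
  apply le_antisymm
  · refine BooleanSubalgebra.closure_le.2 ?_
    rintro s ((⟨a, b, rfl⟩ | ⟨a, rfl⟩) | ⟨b, rfl⟩)
    · have : Set.Ico a b = Set.Iio b \ Set.Iio a := by
        ext x; simp
      rw [this]
      exact BooleanSubalgebra.sdiff_mem
        (BooleanSubalgebra.subset_closure ⟨b, rfl⟩)
        (BooleanSubalgebra.subset_closure ⟨a, rfl⟩)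
    · have : Set.Ici a = (Set.Iio a)ᶜ := by ext x; simp
      rw [this]
      exact BooleanSubalgebra.compl_mem
        (BooleanSubalgebra.subset_closure ⟨a, rfl⟩)
    · exact BooleanSubalgebra.subset_closure ⟨b, rfl⟩
  · exact BooleanSubalgebra.closure_mono fun s hs => Or.inr hs

theorem isIntervalAlgebra_of_orderIso (B : Type*) [BooleanAlgebra B] (X : Type*) [LinearOrder X]
    (e : B ≃o intervalSubalgebra X) : IsIntervalAlgebra B := by
  have hI : ∀ b : X, Set.Iio b ∈ intervalSubalgebra X := fun b =>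
    BooleanSubalgebra.subset_closure (Or.inr ⟨b, rfl⟩)
  refine ⟨Set.range fun b : X => e.symm ⟨Set.Iio b, hI b⟩, ?_, ?_⟩
  · rintro _ ⟨b, rfl⟩ _ ⟨c, rfl⟩ -
    rcases le_total b c with h | h
    · left
      exact e.symm.monotone (show (⟨Set.Iio b, hI b⟩ : intervalSubalgebra X) ≤ ⟨_, hI c⟩ from
        Set.Iio_subset_Iio h)
    · right
      exact e.symm.monotone (show (⟨Set.Iio c, hI c⟩ : intervalSubalgebra X) ≤ ⟨_, hI b⟩ from
        Set.Iio_subset_Iio h)
  · set D := BooleanSubalgebra.closure (Set.range fun b : X => e.symm ⟨Set.Iio b, hI b⟩) with hD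
    have key : ∀ s (hs : s ∈ BooleanSubalgebra.closure {s | ∃ b : X, s = Set.Iio b}),
        ∃ h : s ∈ intervalSubalgebra X, e.symm ⟨s, h⟩ ∈ D := by
      intro s hs
      induction hs using BooleanSubalgebra.closure_bot_sup_induction with
      | mem s hs =>
        obtain ⟨b, rfl⟩ := hs
        exact ⟨hI b, BooleanSubalgebra.subset_closure ⟨b, rfl⟩⟩
      | bot =>
        refine ⟨BooleanSubalgebra.bot_mem, ?_⟩
        have : e.symm ⟨⊥, BooleanSubalgebra.bot_mem⟩ = ⊥ := by
          have : (⟨⊥, BooleanSubalgebra.bot_mem⟩ : intervalSubalgebra X) = ⊥ := rfl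
          rw [this, map_bot]
        rw [this]; exact BooleanSubalgebra.bot_mem
      | sup s hs t ht ihs iht =>
        obtain ⟨h1, h2⟩ := ihs
        obtain ⟨h3, h4⟩ := iht
        refine ⟨BooleanSubalgebra.sup_mem h1 h3, ?_⟩
        have : e.symm ⟨s ⊔ t, BooleanSubalgebra.sup_mem h1 h3⟩ = e.symm ⟨s, h1⟩ ⊔ e.symm ⟨t, h3⟩ := by
          rw [← map_sup]; rfl
        rw [this]; exact BooleanSubalgebra.sup_mem h2 h4
      | compl s hs ih =>
        obtain ⟨h1, h2⟩ := ih
        refine ⟨BooleanSubalgebra.compl_mem h1, ?_⟩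
        have : e.symm ⟨sᶜ, BooleanSubalgebra.compl_mem h1⟩ = (e.symm ⟨s, h1⟩)ᶜ := by
          rw [← map_compl']; rfl
        rw [this]; exact BooleanSubalgebra.compl_mem h2
    refine top_unique fun x _ => ?_
    obtain ⟨h, hx⟩ := key (e x : Set X) (by rw [← intervalSubalgebra_eq]; exact (e x).2)
    simpa using hx

section Forward

variable {B : Type*} [BooleanAlgebra B] {C : Set B}

/-- the points of the linear order -/
abbrev Pts (C : Set B) : Set B := (insert ⊥ C) \ {⊤}

theorem chain_insert (hC : IsChain (· ≤ ·) C) : IsChain (· ≤ ·) (insert ⊤ (insert ⊥ C)) :=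
  (hC.insert fun _ _ _ => Or.inl bot_le).insert fun _ _ _ => Or.inr le_top

theorem chain_pts (hC : IsChain (· ≤ ·) C) : IsChain (· ≤ ·) (Pts C) :=
  (chain_insert hC).mono fun _ hx => Or.inr hx.1

/-- the representing map -/
def rep (C : Set B) (b : B) : Set (Pts C) :=
  {l | ∃ c ∈ insert ⊤ (insert ⊥ C), (l : B) < c ∧ c \ l ≤ b}

theorem rep_mono {b b' : B} (h : b ≤ b') : rep C b ⊆ rep C b' :=
  fun _ ⟨c, hc, hlc, hcb⟩ => ⟨c, hc, hlc, hcb.trans h⟩

theorem exists_min (hC : IsChain (· ≤ ·) C) {c c' l : B} (hc : c ∈ insert ⊤ (insert ⊥ C))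
    (hc' : c' ∈ insert ⊤ (insert ⊥ C)) (hl : l < c) (hl' : l < c') :
    ∃ d ∈ insert ⊤ (insert ⊥ C), l < d ∧ d ≤ c ∧ d ≤ c' := by
  rcases (chain_insert hC).total hc hc' with h | h
  · exact ⟨c, hc, hl, le_rfl, h⟩
  · exact ⟨c', hc', hl', h, le_rfl⟩

theorem not_both (hC : IsChain (· ≤ ·) C) {b b' : B} (hd : b ⊓ b' = ⊥) (l : Pts C)
    (h : l ∈ rep C b) (h' : l ∈ rep C b') : False := by
  obtain ⟨c, hc, hlc, hcb⟩ := h
  obtain ⟨c', hc', hlc', hcb'⟩ := h'
  obtain ⟨d, hd1, hd2, hd3, hd4⟩ := exists_min hC hc hc' hlc hlc'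
  have h1 : d \ l ≤ b ⊓ b' := le_inf ((sdiff_le_sdiff_right hd3).trans hcb)
    ((sdiff_le_sdiff_right hd4).trans hcb')
  rw [hd, le_bot_iff, sdiff_eq_bot_iff] at h1
  exact absurd hd2 (not_lt_of_ge h1)

theorem rep_inf (hC : IsChain (· ≤ ·) C) {b b' : B} : rep C b ∩ rep C b' ⊆ rep C (b ⊓ b') := by
  rintro l ⟨⟨c, hc, hlc, hcb⟩, ⟨c', hc', hlc', hcb'⟩⟩
  obtain ⟨d, hd1, hd2, hd3, hd4⟩ := exists_min hC hc hc' hlc hlc'
  exact ⟨d, hd1, hd2, le_inf ((sdiff_le_sdiff_right hd3).trans hcb)
    ((sdiff_le_sdiff_right hd4).trans hcb')⟩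

theorem decides (hC : IsChain (· ≤ ·) C) (l : Pts C) {b : B}
    (hb : b ∈ BooleanSubalgebra.closure C) : l ∈ rep C b ∨ l ∈ rep C bᶜ := by
  have hltop : (l : B) < ⊤ := lt_top_iff_ne_top.2 fun h => l.2.2 h
  induction hb using BooleanSubalgebra.closure_bot_sup_induction with
  | mem b hb =>
    rcases (chain_insert hC).total (Or.inr l.2.1 : (l : B) ∈ _) (Or.inr (Or.inr hb)) with h | h
    · rcases h.lt_or_eq with h | h
      · exact Or.inl ⟨b, Or.inr (Or.inr hb), h, sdiff_le⟩
      · refine Or.inr ⟨⊤, Or.inl rfl, hltop, ?_⟩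
        rw [h, top_sdiff]
    · refine Or.inr ⟨⊤, Or.inl rfl, hltop, ?_⟩
      rw [top_sdiff']
      exact compl_le_compl h
  | bot => exact Or.inr ⟨⊤, Or.inl rfl, hltop, by simp⟩
  | sup b hb b' hb' ih ih' =>
    rcases ih with h | h
    · exact Or.inl (rep_mono le_sup_left h)
    · rcases ih' with h' | h'
      · exact Or.inl (rep_mono le_sup_right h')
      · right
        rw [compl_sup]
        exact rep_inf hC ⟨h, h'⟩
  | compl b hb ih =>
    rw [compl_compl]
    exact ih.symm

theorem rep_compl (hC : IsChain (· ≤ ·) C) {b : B}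
    (hb : b ∈ BooleanSubalgebra.closure C) : rep C bᶜ = (rep C b)ᶜ := by
  ext l
  constructor
  · intro h h'
    exact not_both hC (inf_compl_self _) l h' h
  · intro h
    exact (decides hC l hb).resolve_left h

theorem rep_bot (hC : IsChain (· ≤ ·) C) : rep C (⊥ : B) = ∅ := by
  ext l
  simp only [mem_empty_iff_false, iff_false]
  intro h
  exact not_both hC (bot_inf_eq (⊥ : B)) l h h

theorem rep_sup (hC : IsChain (· ≤ ·) C) {b b' : B}
    (hb : b ∈ BooleanSubalgebra.closure C) (hb' : b' ∈ BooleanSubalgebra.closure C) :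
    rep C (b ⊔ b') = rep C b ∪ rep C b' := by
  apply subset_antisymm
  · intro l hl
    by_contra h
    rw [mem_union, not_or] at h
    have h1 := (decides hC l hb).resolve_left h.1
    have h2 := (decides hC l hb').resolve_left h.2
    have h3 := rep_inf hC ⟨h1, h2⟩
    rw [← compl_sup] at h3
    exact not_both hC (inf_compl_self _) l hl h3
  · exact union_subset (rep_mono le_sup_left) (rep_mono le_sup_right)

theorem rep_nonempty (hC : IsChain (· ≤ ·) C) {b : B}
    (hb : b ∈ BooleanSubalgebra.closure C) (hne : b ≠ ⊥) : (rep C b).Nonempty := by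
  have hsub : IsSublattice (insert ⊤ (insert ⊥ C)) := by
    constructor
    · intro x hx y hy
      rcases (chain_insert hC).total hx hy with h | h
      · rwa [sup_eq_right.2 h]
      · rwa [sup_eq_left.2 h]
    · intro x hx y hy
      rcases (chain_insert hC).total hx hy with h | h
      · rwa [inf_eq_left.2 h]
      · rwa [inf_eq_right.2 h]
  have hb' : b ∈ BooleanSubalgebra.closure (insert ⊤ (insert ⊥ C)) :=
    BooleanSubalgebra.closure_mono (fun x hx => Or.inr (Or.inr hx)) hb
  obtain ⟨t, ht⟩ := (BooleanSubalgebra.mem_closure_iff_sup_sdiff hsub (Or.inr (Or.inl rfl))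
    (Or.inl rfl)).1 hb'
  have : ∃ x ∈ t, (x.1.1 \ x.2.1 : B) ≠ ⊥ := by
    by_contra hcon
    push Not at hcon
    apply hne
    rw [ht, Finset.sup_eq_bot_iff]
    exact hcon
  obtain ⟨x, hxt, hx⟩ := this
  have hlt : (x.2.1 : B) < x.1.1 := by
    rcases (chain_insert hC).total x.1.2 x.2.2 with h | h
    · exact absurd (sdiff_eq_bot_iff.2 h) hx
    · refine lt_of_le_of_ne h fun h' => hx ?_
      rw [h', _root_.sdiff_self]
  have hne' : (x.2.1 : B) ≠ ⊤ := ne_top_of_lt hlt
  refine ⟨⟨x.2.1, ?_, hne'⟩, x.1.1, x.1.2, hlt, ?_⟩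
  · rcases x.2.2 with h | h
    · exact absurd h hne'
    · exact h
  · rw [ht]
    exact Finset.le_sup (f := fun x => (x.1.1 \ x.2.1 : B)) hxt

theorem rep_le_iff (hC : IsChain (· ≤ ·) C) (hgen : BooleanSubalgebra.closure C = ⊤) {b b' : B} :
    rep C b ⊆ rep C b' ↔ b ≤ b' := by
  refine ⟨fun h => ?_, rep_mono⟩
  have hmem : ∀ x : B, x ∈ BooleanSubalgebra.closure C := fun x => by rw [hgen]; trivial
  by_contra hcon
  have hne : b ⊓ b'ᶜ ≠ ⊥ := by
    intro h'
    exact hcon (by rwa [← _root_.sdiff_eq, sdiff_eq_bot_iff] at h')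
  obtain ⟨l, hl⟩ := rep_nonempty hC (hmem _) hne
  have h1 : l ∈ rep C b' := h (rep_mono inf_le_left hl)
  have h2 : l ∈ rep C b'ᶜ := rep_mono inf_le_right hl
  exact not_both hC (inf_compl_self _) l h1 h2

end Forward

theorem exists_orderIso {B : Type*} [BooleanAlgebra B] (h : IsIntervalAlgebra B) :
    ∃ (X : Set B) (_ : LinearOrder X), Nonempty (B ≃o intervalSubalgebra X) := by
  classical
  obtain ⟨C, hC, hgen⟩ := h
  let _ : LinearOrder (Pts C) := (chain_pts hC).linearOrder
  refine ⟨Pts C, inferInstance, ?_⟩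
  have hmem : ∀ x : B, x ∈ BooleanSubalgebra.closure C := fun x => by rw [hgen]; trivial
  have hlt : ∀ l m : Pts C, l < m ↔ (l : B) < (m : B) := fun l m => Iff.rfl
  have hIio : ∀ m : Pts C, rep C (m : B) = Set.Iio m := by
    intro m
    ext l
    rw [mem_Iio, hlt]
    constructor
    · rintro ⟨c, hc, hlc, hcm⟩
      rcases (chain_pts hC).total l.2 m.2 with h | h
      · refine lt_of_le_of_ne h fun h' => ?_
        have h1 : c ≤ (m : B) ⊔ (l : B) := sdiff_le_iff'.1 hcm
        rw [h', sup_idem] at h1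
        rw [h'] at hlc
        exact absurd hlc (not_lt_of_ge h1)
      · have h1 : c ≤ l := (sdiff_le_iff'.1 hcm).trans (sup_le h le_rfl)
        exact absurd hlc (not_lt_of_ge h1)
    · intro hlm
      exact ⟨m, Or.inr m.2.1, hlm, sdiff_le⟩
  have hrange : ∀ b : B, rep C b ∈ intervalSubalgebra (Pts C) := by
    intro b
    have hb := hmem b
    induction hb using BooleanSubalgebra.closure_bot_sup_induction with
    | mem b hb =>
      by_cases hbt : b = ⊤
      · have : rep C b = (⊤ : Set (Pts C)) := by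
          rw [hbt, ← compl_bot, rep_compl hC BooleanSubalgebra.bot_mem, rep_bot hC]
          simp
        rw [this]
        exact BooleanSubalgebra.top_mem
      · rw [hIio ⟨b, Or.inr hb, hbt⟩]
        exact BooleanSubalgebra.subset_closure (Or.inr ⟨_, rfl⟩)
    | bot => rw [rep_bot hC]; exact BooleanSubalgebra.bot_mem
    | sup b hb b' hb' ih ih' =>
      rw [rep_sup hC hb hb']
      exact BooleanSubalgebra.sup_mem ih ih'
    | compl b hb ih =>
      rw [rep_compl hC hb]
      exact BooleanSubalgebra.compl_mem ih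
  have hsurj : ∀ s ∈ intervalSubalgebra (Pts C), ∃ b : B, rep C b = s := by
    intro s hs
    rw [intervalSubalgebra_eq] at hs
    induction hs using BooleanSubalgebra.closure_bot_sup_induction with
    | mem s hs =>
      obtain ⟨m, rfl⟩ := hs
      exact ⟨m, hIio m⟩
    | bot => exact ⟨⊥, rep_bot hC⟩
    | sup s hs t ht ih ih' =>
      obtain ⟨b, rfl⟩ := ih
      obtain ⟨b', rfl⟩ := ih'
      exact ⟨b ⊔ b', rep_sup hC (hmem _) (hmem _)⟩
    | compl s hs ih =>
      obtain ⟨b, rfl⟩ := ih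
      exact ⟨bᶜ, rep_compl hC (hmem _)⟩
  refine ⟨OrderIso.ofSurjective
    (OrderEmbedding.ofMapLEIff (fun b => (⟨rep C b, hrange b⟩ : intervalSubalgebra (Pts C)))
      fun b b' => ?_) ?_⟩
  · exact rep_le_iff hC hgen
  · rintro ⟨s, hs⟩
    obtain ⟨b, hb⟩ := hsurj s hs
    exact ⟨b, Subtype.ext hb⟩

/-- interval algebras (generated by a chain) are, up to isomorphism, the algebras generated by the
half-open intervals of a linear order -/
theorem isIntervalAlgebra_iff (B : Type) [BooleanAlgebra B] :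
    IsIntervalAlgebra B ↔ ∃ (X : Type) (_ : LinearOrder X),
      Nonempty (B ≃o intervalSubalgebra X) := by
  constructor
  · intro h
    obtain ⟨X, hX, hX'⟩ := exists_orderIso h
    exact ⟨X, hX, hX'⟩
  · rintro ⟨X, hX, ⟨e⟩⟩
    exact isIntervalAlgebra_of_orderIso B X e

end Pool.Agent.Hia
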