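import Pool.Agent.Helper89.Hia.Defs

/-! MP_5ace61_lc, block B: subalgebras of algebras generated by a chain of subsets of `ℕ` are
hereditarily Lindelöf (helper75). -/

open Set

namespace Pool.Agent.Hia

lemma B_cofinal {α : Type*} (E : Set α) (f : α → Set ℕ)
    (hf : ∀ p ∈ E, ∀ q ∈ E, f p ⊆ f q ∨ f q ⊆ f p) :
    ∃ D ⊆ E, D.Countable ∧ ∀ p ∈ E, ∃ q ∈ D, f p ⊆ f q := by
  classical
  by_cases h : ∃ q ∈ E, ∀ p ∈ E, f p ⊆ f q
  · obtain ⟨q, hq, hq'⟩ := h
    exact ⟨{q}, by simpa using hq, countable_singleton _, fun p hp => ⟨q, rfl, hq' p hp⟩⟩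
  · push Not at h
    refine ⟨range (fun m : {m : ℕ // ∃ q ∈ E, m ∈ f q} => m.2.choose), ?_, countable_range _, ?_⟩
    · rintro _ ⟨m, rfl⟩
      exact m.2.choose_spec.1
    · intro p hp
      obtain ⟨q, hq, hq'⟩ := h p hp
      obtain ⟨m, hm, hm'⟩ := not_subset.1 hq'
      have hex : ∃ q ∈ E, m ∈ f q := ⟨q, hq, hm⟩
      refine ⟨_, ⟨⟨m, hex⟩, rfl⟩, ?_⟩
      have hs := hex.choose_spec
      rcases hf p hp _ hs.1 with h1 | h1
      · exact h1
      · exact absurd (h1 hs.2) hm'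

lemma B_isSublattice {L : Set (Set ℕ)} (hL : IsChain (· ⊆ ·) L) : IsSublattice L where
  supClosed := by
    intro a ha b hb
    rcases hL.total ha hb with h | h
    · rw [sup_eq_right.2 h]; exact hb
    · rw [sup_eq_left.2 h]; exact ha
  infClosed := by
    intro a ha b hb
    rcases hL.total ha hb with h | h
    · rw [inf_eq_left.2 h]; exact ha
    · rw [inf_eq_right.2 h]; exact hb

theorem hl_of_chain {L : Set (Set ℕ)} (hL : IsChain (· ⊆ ·) L) {A : BooleanSubalgebra (Set ℕ)}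
    (hA : A ≤ BooleanSubalgebra.closure L) : HL A := by
  classical
  -- insert `∅` and `univ`
  set L' : Set (Set ℕ) := insert ∅ (insert Set.univ L) with hL'
  have hch : IsChain (· ⊆ ·) L' := by
    refine (hL.insert fun b _ _ => Or.inr (subset_univ b)).insert fun b _ _ =>
      Or.inl (empty_subset b)
  have hAL : A ≤ BooleanSubalgebra.closure L' :=
    hA.trans (BooleanSubalgebra.closure_mono fun x hx => Or.inr (Or.inr hx))
  have hsub : IsSublattice L' := B_isSublattice hch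
  intro T hT
  -- small sets
  let Sm : Set ℕ → Prop := fun s => ∃ F : Set (Set ℕ), F.Finite ∧ F ⊆ T ∧ s ⊆ ⋃₀ F
  let E : ℕ → Set (Set ℕ × Set ℕ) := fun n =>
    {p | p.1 ∈ L' ∧ p.2 ∈ L' ∧ n ∈ p.2 \ p.1 ∧ Sm (p.2 \ p.1)}
  have h1 : ∀ n, ∃ D ⊆ E n, D.Countable ∧ ∀ p ∈ E n, ∃ q ∈ D, q.1 ⊆ p.1 := by
    intro n
    obtain ⟨D, hD, hD', hD''⟩ := B_cofinal (E n) (fun p => p.1ᶜ) (fun p hp q hq => by
      rcases hch.total hp.1 hq.1 with h | h
      · exact Or.inr (compl_subset_compl.2 h)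
      · exact Or.inl (compl_subset_compl.2 h))
    refine ⟨D, hD, hD', fun p hp => ?_⟩
    obtain ⟨q, hq, hq'⟩ := hD'' p hp
    exact ⟨q, hq, compl_subset_compl.1 hq'⟩
  have h2 : ∀ n, ∃ D ⊆ E n, D.Countable ∧ ∀ p ∈ E n, ∃ q ∈ D, p.2 ⊆ q.2 := fun n =>
    B_cofinal (E n) (fun p => p.2) (fun p hp q hq => hch.total hp.2.1 hq.2.1)
  choose D1 hD1 hD1c hD1' using h1
  choose D2 hD2 hD2c hD2' using h2
  -- finite families
  have hG : ∀ s : Set ℕ, ∃ F : Set (Set ℕ), F.Finite ∧ F ⊆ T ∧ (Sm s → s ⊆ ⋃₀ F) := by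
    intro s
    by_cases hs : Sm s
    · obtain ⟨F, h1, h2, h3⟩ := hs
      exact ⟨F, h1, h2, fun _ => h3⟩
    · exact ⟨∅, finite_empty, empty_subset _, fun h => absurd h hs⟩
  choose G hGf hGT hGs using hG
  set T' : Set (Set ℕ) := ⋃ n, ⋃ q ∈ D1 n ∪ D2 n, G (q.2 \ q.1) with hT'
  refine ⟨T', ?_, ?_, ?_⟩
  · intro x hx
    simp only [hT', mem_iUnion] at hx
    obtain ⟨n, q, _, hx⟩ := hx
    exact hGT _ hx
  · refine countable_iUnion fun n => Countable.biUnion ((hD1c n).union (hD2c n)) fun q _ => ?_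
    exact (hGf _).countable
  · intro t ht
    have hPun : ∀ s s' : Set ℕ, (∃ F : Set (Set ℕ), F.Finite ∧ F ⊆ T' ∧ s ⊆ ⋃₀ F) →
        (∃ F : Set (Set ℕ), F.Finite ∧ F ⊆ T' ∧ s' ⊆ ⋃₀ F) →
        (∃ F : Set (Set ℕ), F.Finite ∧ F ⊆ T' ∧ s ∪ s' ⊆ ⋃₀ F) := by
      rintro s s' ⟨F, a1, a2, a3⟩ ⟨F', b1, b2, b3⟩
      refine ⟨F ∪ F', a1.union b1, union_subset a2 b2, ?_⟩
      rw [sUnion_union]
      exact union_subset_union a3 b3
    obtain ⟨r, hr⟩ := (BooleanSubalgebra.mem_closure_iff_sup_sdiff hsub (Or.inl rfl)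
      (Or.inr (Or.inl rfl))).1 (hAL (hT ht))
    -- every interval below `t` is covered
    have key : ∀ x : L' × L', (x.1 : Set ℕ) \ x.2 ⊆ t →
        ∃ F : Set (Set ℕ), F.Finite ∧ F ⊆ T' ∧ (x.1 : Set ℕ) \ x.2 ⊆ ⋃₀ F := by
      rintro ⟨⟨e', he'⟩, ⟨e, he⟩⟩ hx
      simp only at hx ⊢
      rcases (e' \ e).eq_empty_or_nonempty with h0 | ⟨n, hn⟩
      · exact ⟨∅, finite_empty, empty_subset _, by rw [h0]; exact empty_subset _⟩
      · have hpE : ((e, e') : Set ℕ × Set ℕ) ∈ E n :=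
          ⟨he, he', hn, {t}, finite_singleton t, by simpa using ht, by simpa using hx⟩
        obtain ⟨q1, hq1, hq1'⟩ := hD1' n _ hpE
        obtain ⟨q2, hq2, hq2'⟩ := hD2' n _ hpE
        have E1 := hD1 n hq1
        have E2 := hD2 n hq2
        refine ⟨G (q1.2 \ q1.1) ∪ G (q2.2 \ q2.1), (hGf _).union (hGf _), ?_, ?_⟩
        · refine union_subset (fun x hx => ?_) (fun x hx => ?_)
          · exact mem_iUnion.2 ⟨n, mem_iUnion₂.2 ⟨q1, Or.inl hq1, hx⟩⟩
          · exact mem_iUnion.2 ⟨n, mem_iUnion₂.2 ⟨q2, Or.inr hq2, hx⟩⟩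
        · rw [sUnion_union]
          intro m hm
          by_cases hm1 : m ∈ q1.2
          · left
            exact hGs _ E1.2.2.2 ⟨hm1, fun h => hm.2 (hq1' h)⟩
          · right
            refine hGs _ E2.2.2.2 ⟨hq2' hm.1, fun h => hm1 ?_⟩
            rcases hch.total E2.1 E1.2.1 with h3 | h3
            · exact h3 h
            · exact absurd (h3 E1.2.2.1.1) E2.2.2.1.2
    -- finite unions
    have key2 : ∀ r : Finset (L' × L'), (r.sup fun x : L' × L' => (x.1 : Set ℕ) \ x.2) ⊆ t →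
        ∃ F : Set (Set ℕ), F.Finite ∧ F ⊆ T' ∧
          (r.sup fun x : L' × L' => (x.1 : Set ℕ) \ x.2) ⊆ ⋃₀ F := by
      intro r
      induction r using Finset.induction_on with
      | empty =>
        intro _
        exact ⟨∅, finite_empty, empty_subset _, by simp⟩
      | insert a r _ ih =>
        intro h
        rw [Finset.sup_insert] at h ⊢
        have h' : (a.1 : Set ℕ) \ a.2 ∪ (r.sup fun x : L' × L' => (x.1 : Set ℕ) \ x.2) ⊆ t := h
        exact hPun _ _ (key a (subset_union_left.trans h')) (ih (subset_union_right.trans h'))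
    rw [hr] at key2 ⊢
    exact key2 r subset_rfl

end Pool.Agent.Hia
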